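import Pool.Agent.Q188.ES.Defs

/-!
# The set of points with dense orbit is comeagre (MP_7df46e_an, Q1)
-/

set_option autoImplicit false

open Set Filter Topology Pool.Agent.Q188.ES

namespace Pool.Agent.Results.MP_7df46e_an.ComeagreDenseOrbits

lemma ccyl_append_true (w : List Bool) : ccyl (w ++ [true]) ⊆ cyl w := by
  rintro _ ⟨y, hy, rfl⟩
  rw [A_append]
  refine ⟨A [true] y, ?_, rfl⟩
  simp only [A, bv, if_true]
  constructor <;> linarith [hy.1, hy.2]

/-- every cylinder contains a cylinder sent by an iterate of `R` into a given closed cylinder -/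
lemma exists_sub (n : ℕ) : ∀ u : List Bool, u.length ≤ n → ∀ v : List Bool,
    ∃ (k : ℕ) (w : List Bool), ∀ x ∈ cyl (u ++ w), R^[k] x ∈ ccyl v := by
  -- one step
  have step : ∀ u : List Bool, (∀ v : List Bool,
      ∃ (k : ℕ) (w : List Bool), ∀ x ∈ cyl (rho false u ++ w), R^[k] x ∈ ccyl v) →
      ∀ v : List Bool, ∃ (k : ℕ) (w : List Bool), ∀ x ∈ cyl (u ++ w), R^[k] x ∈ ccyl v := by
    intro u h v
    obtain ⟨k, w₁, hk⟩ := h v
    refine ⟨k + 1, lift (st false u) (w₁ ++ [true]), ?_⟩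
    rintro _ ⟨y, hy, rfl⟩
    rw [Function.iterate_succ_apply]
    apply hk
    rw [R_of_pos (A_mem hy).1, Rs_A _ _ hy, rho_append, rho_lift, ← List.append_assoc]
    apply ccyl_append_true
    exact ⟨_, Rs_mem _ _, rfl⟩
  induction n with
  | zero =>
    intro u hu v
    have : u = [] := List.length_eq_zero_iff.1 (by omega)
    subst this
    exact ⟨0, v, fun x hx => cyl_subset v hx⟩
  | succ n ih =>
    intro u hu
    by_cases hne : u = []
    · subst hne
      exact fun v => ⟨0, v, fun x hx => cyl_subset v hx⟩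
    · apply step
      apply step
      apply ih
      have := length_rho_rho_lt hne
      omega

/-- the open interval inside a cylinder -/
def ocyl (w : List Bool) : Set ℝ := A w '' Ioo (0 : ℝ) 1

lemma ocyl_eq (w : List Bool) : ocyl w = Ioo (A w 0) (A w 1) := by
  have hpos : (0 : ℝ) < (1 / 2) ^ w.length := by positivity
  ext x
  constructor
  · rintro ⟨y, hy, rfl⟩
    rw [A_affine w y, A_affine w 1]
    constructor
    · nlinarith [hy.1]
    · nlinarith [hy.2]
  · rintro ⟨h1, h2⟩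
    rw [A_affine w 1] at h2
    refine ⟨(x - A w 0) / (1 / 2) ^ w.length, ⟨div_pos (by linarith) hpos, ?_⟩, ?_⟩
    · rw [div_lt_one hpos]; linarith
    · rw [A_affine w (_ / _), mul_div_cancel₀ _ hpos.ne']
      ring

lemma isOpen_ocyl (w : List Bool) : IsOpen (ocyl w) := by
  rw [ocyl_eq]; exact isOpen_Ioo

/-- The set `E` of the points of `[0,1]` whose orbit under `R` is dense in `[0,1]` is comeagre
in `[0,1]`. -/
theorem result : {x : Icc (0 : ℝ) 1 | DenseOrbit x.1} ∈ residual (Icc (0 : ℝ) 1) := by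
  -- the open sets
  let O : List Bool → Set ℝ := fun v =>
    ⋃ (p : {p : ℕ × List Bool // ∀ x ∈ cyl p.2, R^[p.1] x ∈ ccyl v}), ocyl p.1.2
  have hO : ∀ v, IsOpen (O v) := fun v => isOpen_iUnion fun p => isOpen_ocyl _
  have hdense : ∀ v, Dense ((Subtype.val : Icc (0 : ℝ) 1 → ℝ) ⁻¹' O v) := by
    intro v
    rw [Metric.dense_iff]
    rintro ⟨x, hx⟩ ε hε
    -- a point of `(0,1]` close to `x`
    obtain ⟨x', hx', hxx'⟩ : ∃ x' ∈ Ioc (0 : ℝ) 1, |x' - x| < ε / 2 := by
      rcases eq_or_lt_of_le hx.1 with h0 | h0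
      · refine ⟨min 1 (ε / 4), ⟨by positivity, min_le_left _ _⟩, ?_⟩
        rw [← h0, sub_zero, abs_of_pos (by positivity)]
        have := min_le_right 1 (ε / 4)
        linarith
      · exact ⟨x, ⟨h0, hx.2⟩, by simpa using by positivity⟩
    obtain ⟨n, hn⟩ := exists_pow_lt_of_lt_one (by positivity : 0 < ε / 2)
      (by norm_num : (1 / 2 : ℝ) < 1)
    obtain ⟨u, hu, hxu⟩ := exists_word n hx'
    obtain ⟨k, w, hkw⟩ := exists_sub u.length u le_rfl v
    have hhalf : (1 / 2 : ℝ) ∈ Ioo (0 : ℝ) 1 := by constructor <;> norm_num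
    have hz : A (u ++ w) (1 / 2) ∈ Icc (0 : ℝ) 1 := A_mem' (Ioo_subset_Icc_self hhalf)
    refine ⟨⟨A (u ++ w) (1 / 2), hz⟩, ?_, ?_⟩
    · rw [Metric.mem_ball, Subtype.dist_eq, Real.dist_eq]
      have h1 : A (u ++ w) (1 / 2) ∈ ccyl u := by
        rw [A_append]
        exact ⟨_, A_mem' (Ioo_subset_Icc_self hhalf), rfl⟩
      have h2 := dist_ccyl h1 (cyl_subset u hxu)
      rw [hu] at h2
      have h3 : A (u ++ w) (1 / 2) - x = (A (u ++ w) (1 / 2) - x') + (x' - x) := by ring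
      simp only
      rw [h3]
      calc |A (u ++ w) (1 / 2) - x' + (x' - x)| ≤ |A (u ++ w) (1 / 2) - x'| + |x' - x| :=
            abs_add_le _ _
        _ < ε := by linarith
    · rw [mem_preimage, mem_iUnion]
      exact ⟨⟨(k, u ++ w), hkw⟩, ⟨1 / 2, hhalf, rfl⟩⟩
  have hres : (⋂ v, (Subtype.val : Icc (0 : ℝ) 1 → ℝ) ⁻¹' O v) ∈ residual (Icc (0 : ℝ) 1) := by
    rw [countable_iInter_mem]
    intro v
    exact residual_of_dense_open ((hO v).preimage continuous_subtype_val) (hdense v)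
  refine mem_of_superset hres ?_
  intro x hx
  apply denseOrbit_of_ccyl
  intro v
  have hv := mem_iInter.1 hx v
  rw [mem_preimage, mem_iUnion] at hv
  obtain ⟨⟨⟨k, w⟩, hkw⟩, y, hy, hyx⟩ := hv
  exact ⟨k, hkw x.1 ⟨y, Ioo_subset_Ioc_self hy, hyx⟩⟩

end Pool.Agent.Results.MP_7df46e_an.ComeagreDenseOrbits
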