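import Pool.Agent.Q188.ES.Meas

/-!
# The set of points with dense orbit has full measure (MP_7df46e_an, Q2)
-/

set_option autoImplicit false

open Set Filter Topology MeasureTheory Pool.Agent.Q188.ES

namespace Pool.Agent.Results.MP_7df46e_an.FullMeasureDenseOrbits

lemma measurable_R : Measurable R := by
  have h1 : R = fun x => if 0 < x then Rs false x else 2 / 3 := by
    funext x
    by_cases h : 0 < x
    · rw [R_of_pos h, if_pos h]
    · rw [R, if_neg h, if_neg h]
  rw [h1]
  exact Measurable.ite measurableSet_Ioi (measurable_Rs false) measurable_const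

lemma pow_pos' (w : List Bool) : (0 : ℝ) < (1 / 2) ^ w.length := by positivity

lemma cyl_eq (w : List Bool) : cyl w = Ioc (A w 0) (A w 1) := by
  have hpos := pow_pos' w
  ext x
  constructor
  · rintro ⟨y, hy, rfl⟩
    rw [A_affine w y, A_affine w 1]
    constructor
    · nlinarith [hy.1]
    · nlinarith [hy.2]
  · rintro ⟨h1, h2⟩
    rw [A_affine w 1] at h2
    refine ⟨(x - A w 0) / (1 / 2) ^ w.length, ⟨div_pos (by linarith) hpos, ?_⟩, ?_⟩
    · rw [div_le_one hpos]; linarith
    · rw [A_affine w (_ / _), mul_div_cancel₀ _ hpos.ne']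
      ring

lemma volume_cyl_inter (T : Set ℝ) (w : List Bool) :
    volume (T ∩ cyl w) = ENNReal.ofReal ((1 / 2) ^ w.length) *
      volume ({y | A w y ∈ T} ∩ Ioc (0 : ℝ) 1) := by
  have hpos := pow_pos' w
  have h1 : {y | A w y ∈ T} ∩ Ioc (0 : ℝ) 1 = (fun y : ℝ => (1 / 2) ^ w.length * y) ⁻¹'
      ((fun z : ℝ => A w 0 + z) ⁻¹' (T ∩ cyl w)) := by
    ext y
    simp only [mem_inter_iff, mem_ofPred_eq, mem_preimage, cyl_eq]
    rw [← A_affine w y]
    refine and_congr_right fun _ => ?_
    rw [A_affine w y, A_affine w 1]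
    constructor
    · rintro ⟨h1, h2⟩
      constructor
      · nlinarith
      · nlinarith
    · rintro ⟨h1, h2⟩
      constructor
      · by_contra hcon
        push Not at hcon
        nlinarith
      · by_contra hcon
        push Not at hcon
        nlinarith
  rw [h1, Real.volume_preimage_mul_left hpos.ne', measure_preimage_add,
    ← mul_assoc, ← ENNReal.ofReal_mul hpos.le, abs_of_pos (inv_pos.2 hpos),
    mul_inv_cancel₀ hpos.ne', ENNReal.ofReal_one, one_mul]

/-- the points of `(0,1]` whose orbit meets a cylinder -/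
def hit (v : List Bool) : Set ℝ := {x | x ∈ Ioc (0 : ℝ) 1 ∧ ∃ k : ℕ, R^[k] x ∈ cyl v}

lemma measurableSet_hit (v : List Bool) : MeasurableSet (hit v) := by
  have h1 : hit v = Ioc (0 : ℝ) 1 ∩ ⋃ k : ℕ, (R^[k]) ⁻¹' cyl v := by
    ext x
    simp [hit]
  rw [h1]
  refine measurableSet_Ioc.inter (MeasurableSet.iUnion fun k => ?_)
  have h2 : MeasurableSet (cyl v) := by rw [cyl_eq]; exact measurableSet_Ioc
  exact (measurable_R.iterate k) h2

lemma hit_back (v : List Bool) : ∀ x ∈ Ioc (0 : ℝ) 1, 0 < Rs false x →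
    Rs false (Rs false x) ∈ hit v → x ∈ hit v := by
  rintro x hx hpos ⟨-, k, hk⟩
  refine ⟨hx, k + 2, ?_⟩
  rw [Function.iterate_add_apply]
  have : R^[2] x = Rs false (Rs false x) := by
    change R (R x) = _
    rw [R_of_pos hx.1, R_of_pos hpos]
  rw [this]
  exact hk

lemma P_hit_pos (v : List Bool) : 0 < P (hit v) := by
  have h1 : P (cyl v) ≤ P (hit v) := P_mono fun x hx hxv => ⟨hx, 0, hxv⟩
  have h2 : 0 < P (cyl v) := by
    have hsub : cyl v ∩ Ioc (0 : ℝ) 1 = univ ∩ cyl v := by
      ext x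
      constructor
      · exact fun h => ⟨mem_univ _, h.1⟩
      · rintro ⟨-, y, hy, rfl⟩
        exact ⟨⟨y, hy, rfl⟩, A_mem hy⟩
    rw [P, hsub, volume_cyl_inter, ENNReal.toReal_mul, ENNReal.toReal_ofReal (pow_pos' v).le]
    have h3 : ({y | A v y ∈ (univ : Set ℝ)} ∩ Ioc (0 : ℝ) 1) = Ioc 0 1 := by ext; simp
    rw [h3, Real.volume_Ioc]
    have := pow_pos' v
    simp
  linarith

lemma ae_hit (v : List Bool) : ∀ᵐ x, x ∈ Ioc (0 : ℝ) 1 → x ∈ hit v := by
  by_contra hcon
  set c := P (hit v) / 2 with hc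
  have hc0 : 0 < c := by have := P_hit_pos v; positivity
  set B : Set ℝ := Ioc (0 : ℝ) 1 \ hit v with hB
  have hBm : MeasurableSet B := measurableSet_Ioc.diff (measurableSet_hit v)
  have hBpos : volume B ≠ 0 := by
    intro h0
    apply hcon
    have h1 : ∀ᵐ x, x ∉ B := measure_eq_zero_iff_ae_notMem.1 h0
    filter_upwards [h1] with x hx hxI
    by_contra h2
    exact hx ⟨hxI, h2⟩
  have hdens := IsUnifLocDoublingMeasure.ae_tendsto_measure_inter_div (volume : Measure ℝ) B 1
  have hmem : ∀ᵐ x ∂(volume.restrict B), x ∈ B := ae_restrict_mem hBm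
  have hne : (ae (volume.restrict B)).NeBot := by
    rw [ae_neBot]
    intro h
    apply hBpos
    rwa [Measure.restrict_eq_zero] at h
  obtain ⟨x, hx, hxB⟩ := (hdens.and hmem).exists
  choose w hw hxw using fun n : ℕ => exists_word n hxB.1
  -- closed balls
  have hball : ∀ n, Metric.closedBall (A (w n) (1 / 2)) ((1 / 2) ^ (n + 1)) =
      Icc (A (w n) 0) (A (w n) 1) := by
    intro n
    rw [Real.closedBall_eq_Icc, A_affine (w n) (1 / 2), A_affine (w n) 1, hw n, pow_succ]
    congr 1 <;> ring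
  have hlim := hx (fun n => A (w n) (1 / 2)) (fun n : ℕ => (1 / 2 : ℝ) ^ (n + 1)) (l := atTop) (by
    rw [tendsto_nhdsWithin_iff]
    refine ⟨?_, Eventually.of_forall fun n => by simp only [mem_Ioi]; positivity⟩
    exact (tendsto_add_atTop_iff_nat 1).2 (tendsto_pow_atTop_nhds_zero_of_lt_one (by norm_num)
      (by norm_num))) (Eventually.of_forall fun n => by
      rw [one_mul, hball]
      have := hxw n
      rw [cyl_eq] at this
      exact Ioc_subset_Icc_self this)
  have hratio : ∀ n, volume (B ∩ Metric.closedBall (A (w n) (1 / 2)) ((1 / 2) ^ (n + 1))) /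
      volume (Metric.closedBall (A (w n) (1 / 2)) ((1 / 2) ^ (n + 1))) ≤
        ENNReal.ofReal (1 - c) := by
    intro n
    have hpos := pow_pos' (w n)
    have hv2 : volume (Icc (A (w n) 0) (A (w n) 1)) = ENNReal.ofReal ((1 / 2) ^ (w n).length) := by
      rw [Real.volume_Icc, A_affine (w n) 1]
      congr 1; ring
    have hv1 : volume (B ∩ Icc (A (w n) 0) (A (w n) 1)) ≤ volume (B ∩ cyl (w n)) := by
      have hsub : B ∩ Icc (A (w n) 0) (A (w n) 1) ⊆ (B ∩ cyl (w n)) ∪ {A (w n) 0} := by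
        rintro y ⟨hy1, hy2⟩
        rcases eq_or_lt_of_le hy2.1 with h | h
        · right; exact h.symm
        · left; exact ⟨hy1, by rw [cyl_eq]; exact ⟨h, hy2.2⟩⟩
      refine (measure_mono hsub).trans ((measure_union_le _ _).trans ?_)
      simp
    rw [hball, hv2]
    apply ENNReal.div_le_of_le_mul
    refine hv1.trans ?_
    rw [volume_cyl_inter, mul_comm]
    gcongr
    -- probability
    have h1 := track' (measurableSet_hit v) (hit_back v) (w n)
    have h2 : P {y | A (w n) y ∈ B} = 1 - P {y | A (w n) y ∈ hit v} := by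
      have hAm : Measurable fun y => A (w n) y := by
        have h1 : (fun y => A (w n) y) = fun y => A (w n) 0 + (1 / 2) ^ (w n).length * y := by
          funext y; exact A_affine (w n) y
        rw [h1]
        fun_prop
      have hm : MeasurableSet {y | A (w n) y ∈ hit v} := hAm (measurableSet_hit v)
      have h3 := measure_inter_add_sdiff (μ := volume) (Ioc (0 : ℝ) 1) hm
      have e1 : Ioc (0 : ℝ) 1 ∩ {y | A (w n) y ∈ hit v} =
          {y | A (w n) y ∈ hit v} ∩ Ioc (0 : ℝ) 1 := inter_comm _ _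
      have e2 : Ioc (0 : ℝ) 1 \ {y | A (w n) y ∈ hit v} =
          {y | A (w n) y ∈ B} ∩ Ioc (0 : ℝ) 1 := by
        ext y
        constructor
        · rintro ⟨h4, h5⟩
          exact ⟨⟨A_mem h4, h5⟩, h4⟩
        · rintro ⟨h4, h5⟩
          exact ⟨h5, h4.2⟩
      rw [e1, e2] at h3
      have h4 := congrArg ENNReal.toReal h3
      rw [ENNReal.toReal_add (fin _) (fin _)] at h4
      rw [P, P]
      have h5 : (volume (Ioc (0 : ℝ) 1)).toReal = 1 := by simp
      linarith
    have h3 : P {y | A (w n) y ∈ B} ≤ 1 - c := by rw [h2]; linarith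
    rw [P] at h3
    rw [← ENNReal.ofReal_toReal (fin {y | A (w n) y ∈ B})]
    exact ENNReal.ofReal_le_ofReal h3
  have h1 := le_of_tendsto hlim (Eventually.of_forall hratio)
  have h2 : ENNReal.ofReal (1 - c) < 1 := by
    rw [ENNReal.ofReal_lt_one]
    linarith
  exact absurd h1 (not_le.2 h2)

/-- Almost every point of `[0,1]` has a dense orbit under `R`: the complement in `[0,1]` of the set
`E` of the points with a dense orbit is a Lebesgue null set, and `λ(E) = 1`. -/
theorem result : volume (Icc (0 : ℝ) 1 \ {x | DenseOrbit x}) = 0 ∧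
    volume {x | x ∈ Icc (0 : ℝ) 1 ∧ DenseOrbit x} = 1 := by
  have h1 : ∀ᵐ x, ∀ v : List Bool, x ∈ Ioc (0 : ℝ) 1 → x ∈ hit v := ae_all_iff.2 ae_hit
  have h2 : ∀ᵐ x : ℝ, x ≠ 0 := by
    rw [ae_iff]; simp
  have h3 : ∀ᵐ x, x ∈ Icc (0 : ℝ) 1 → DenseOrbit x := by
    filter_upwards [h1, h2] with x hx hx0 hxI
    apply denseOrbit_of_ccyl
    intro v
    obtain ⟨-, k, hk⟩ := hx v ⟨lt_of_le_of_ne hxI.1 (Ne.symm hx0), hxI.2⟩
    exact ⟨k, cyl_subset v hk⟩
  constructor
  · rw [measure_eq_zero_iff_ae_notMem]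
    filter_upwards [h3] with x hx hcon
    exact hcon.2 (hx hcon.1)
  · have h4 : volume {x | x ∈ Icc (0 : ℝ) 1 ∧ DenseOrbit x} = volume (Icc (0 : ℝ) 1) := by
      apply measure_congr
      filter_upwards [h3] with x hx
      apply propext
      exact ⟨fun h => h.1, fun h => ⟨h, hx h⟩⟩
    rw [h4]
    simp

end Pool.Agent.Results.MP_7df46e_an.FullMeasureDenseOrbits
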